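import Mathlib

set_option autoImplicit false

/-!
# A monotone class of graphs whose speed is not MC-finite

Let `blow k` be the blow-up of the cycle on `k` vertices whose parts are independent sets of sizes
`1, 2, 4, ..., 2 ^ (k - 1)`.  For odd `k` these graphs form an antichain for the subgraph relation
and the number of labelled copies of `blow k` on its `2 ^ k - 1` vertices is odd.
For a set `T` of natural numbers let `𝓜 T` be the class of all graphs which are a proper subgraph
of some `blow k` (`k` odd) or a subgraph of some `blow k` with `k = 2 i + 3`, `i ∈ T`.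
All these classes are monotone and their speeds are pairwise different modulo `2`;
since only countably many sequences modulo `2` satisfy a linear recurrence, some of these
speeds are not MC-finite.
-/

namespace Pool.Agent.Results.MP_337eac_co.MonotoneNotMC

open SimpleGraph Finset

/-- A class of finite graphs, given by its members with vertex set `Fin n` (`n = 0, 1, 2, ...`), is
monotone (and in particular closed under isomorphism) if it contains every graph which is isomorphic
to a (not necessarily induced) subgraph of a member. -/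
def IsMonotone (C : ∀ n, Set (SimpleGraph (Fin n))) : Prop :=
  ∀ (m n : ℕ) (G : SimpleGraph (Fin m)) (H : SimpleGraph (Fin n)),
    G.IsContained H → H ∈ C n → G ∈ C m

/-- The class is hereditary (and closed under isomorphism) if it contains every graph which is
isomorphic to an induced subgraph of a member. -/
def IsHereditary (C : ∀ n, Set (SimpleGraph (Fin n))) : Prop :=
  ∀ (m n : ℕ) (G : SimpleGraph (Fin m)) (H : SimpleGraph (Fin n)),
    Nonempty (G ↪g H) → H ∈ C n → G ∈ C m

/-- The speed: the number of labelled graphs on `n` vertices in the class. -/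
noncomputable def speed (C : ∀ n, Set (SimpleGraph (Fin n))) (n : ℕ) : ℤ := ((C n).ncard : ℤ)

/-- MC-finiteness: for every `m ≥ 1` the sequence satisfies modulo `m`, from some index on, a linear
recurrence with constant coefficients. -/
def MCFinite (s : ℕ → ℤ) : Prop :=
  ∀ m : ℕ, 1 ≤ m → ∃ r p : ℕ, 1 ≤ r ∧ 1 ≤ p ∧ ∃ α : ℕ → ℤ, ∀ n, r ≤ n →
    s (n + p) ≡ ∑ i ∈ range p, α i * s (n + i) [ZMOD m]

/-! ### The number of labelled copies -/

/-- The blow-up of a cycle with parts of size `1, 2, 4, ...`. -/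
def blow (k : ℕ) : SimpleGraph (Σ i : Fin k, Fin (2 ^ (i : ℕ))) := (cycleGraph k).comap Sigma.fst

lemma card_V (k : ℕ) : Nat.card (Σ i : Fin k, Fin (2 ^ (i : ℕ))) = 2 ^ k - 1 := by
  simp only [Nat.card_eq_fintype_card, Fintype.card_sigma, Fintype.card_fin]
  rw [Fin.sum_univ_eq_sum_range (fun i => 2 ^ i) k]
  have := Nat.geomSum_eq (le_refl 2) k
  simpa using this

/-- Permutations of the vertices act on graphs. -/
@[reducible] def act (V : Type) : MulAction (Equiv.Perm V) (SimpleGraph V) where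
  smul σ G := G.comap (σ.symm : V → V)
  one_smul _ := rfl
  mul_smul _ _ _ := rfl

lemma choose_odd (k : ℕ) : Odd ((2 ^ (k + 1) - 1).choose (2 ^ k)) := by
  induction k with
  | zero => simp
  | succ k ih =>
    have : Fact (Nat.Prime 2) := ⟨Nat.prime_two⟩
    have h := @Choose.choose_modEq_choose_mod_mul_choose_div_nat (2 ^ (k + 1 + 1) - 1)
      (2 ^ (k + 1)) 2 _
    have e0 : 2 ^ (k + 1 + 1) = 2 * 2 ^ (k + 1) := by rw [pow_succ]; ring
    have e1 : 2 ^ (k + 1) = 2 * 2 ^ k := by rw [pow_succ]; ring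
    have hp : 0 < 2 ^ k := by positivity
    have h1 : (2 ^ (k + 1 + 1) - 1) % 2 = 1 := by omega
    have h2 : (2 ^ (k + 1 + 1) - 1) / 2 = 2 ^ (k + 1) - 1 := by omega
    have h3 : (2 ^ (k + 1)) % 2 = 0 := by omega
    have h4 : (2 ^ (k + 1)) / 2 = 2 ^ k := by omega
    rw [h1, h2, h3, h4] at h
    simp only [Nat.choose_zero_right, one_mul] at h
    exact Nat.odd_iff.2 (Eq.trans h (Nat.odd_iff.1 ih))

lemma factorial_eq (k : ℕ) :
    ∃ c, Odd c ∧ (2 ^ k - 1).factorial = (∏ i ∈ range k, (2 ^ i).factorial) * c := by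
  induction k with
  | zero => exact ⟨1, by simp, by simp⟩
  | succ k ih =>
    obtain ⟨c, hc, h⟩ := ih
    refine ⟨c * (2 ^ (k + 1) - 1).choose (2 ^ k), hc.mul (choose_odd k), ?_⟩
    have e1 : 2 ^ (k + 1) = 2 * 2 ^ k := by rw [pow_succ]; ring
    have hp : 0 < 2 ^ k := by positivity
    have h1 : 2 ^ k ≤ 2 ^ (k + 1) - 1 := by omega
    have h2 := Nat.choose_mul_factorial_mul_factorial h1
    have h3 : 2 ^ (k + 1) - 1 - 2 ^ k = 2 ^ k - 1 := by omega
    rw [h3, h] at h2
    rw [← h2, prod_range_succ]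
    ring

/-- The number of graphs on the vertex set of `blow k` isomorphic to `blow k` is odd. -/
lemma odd_orbit (k : ℕ) : Odd ({G : SimpleGraph (Σ i : Fin k, Fin (2 ^ (i : ℕ))) |
    Nonempty (blow k ≃g G)}.ncard) := by
  classical
  let _ := act (Σ i : Fin k, Fin (2 ^ (i : ℕ)))
  have horb : {G : SimpleGraph (Σ i : Fin k, Fin (2 ^ (i : ℕ))) | Nonempty (blow k ≃g G)} =
      MulAction.orbit (Equiv.Perm (Σ i : Fin k, Fin (2 ^ (i : ℕ)))) (blow k) := by
    ext G
    constructor
    · rintro ⟨f⟩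
      refine ⟨f.toEquiv, ?_⟩
      change (blow k).comap (f.toEquiv.symm) = G
      ext a b
      simp only [comap_adj]
      have := f.symm.map_adj_iff (v := a) (w := b)
      exact this
    · rintro ⟨σ, hσ⟩
      change (blow k).comap (σ.symm) = G at hσ
      refine ⟨⟨σ, ?_⟩⟩
      intro a b
      rw [← hσ]
      simp
  rw [horb, ← MulAction.index_stabilizer]
  set Q := (Equiv.Perm.sigmaCongrRightHom (fun i : Fin k => Fin (2 ^ (i : ℕ)))).range with hQ
  have hle : Q ≤ MulAction.stabilizer (Equiv.Perm (Σ i : Fin k, Fin (2 ^ (i : ℕ)))) (blow k) := by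
    rintro _ ⟨F, rfl⟩
    rw [MulAction.mem_stabilizer_iff]
    change (blow k).comap _ = blow k
    ext a b
    rfl
  have hcardQ : Nat.card Q = ∏ i ∈ range k, (2 ^ i).factorial := by
    have h1 : Nat.card Q = Nat.card (∀ i : Fin k, Equiv.Perm (Fin (2 ^ (i : ℕ)))) :=
      Nat.card_congr (Equiv.ofInjective _ Equiv.Perm.sigmaCongrRightHom_injective).symm
    rw [h1, Nat.card_pi]
    refine Eq.trans (prod_congr rfl (fun i _ => ?_))
      (Fin.prod_univ_eq_prod_range (fun i => (2 ^ i).factorial) k)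
    rw [Nat.card_perm, Nat.card_eq_fintype_card, Fintype.card_fin]
  have hidx := Q.card_mul_index
  rw [hcardQ, Nat.card_perm, card_V] at hidx
  obtain ⟨c, hc, h⟩ := factorial_eq k
  have hpos : 0 < ∏ i ∈ range k, (2 ^ i).factorial := prod_pos (fun i _ => Nat.factorial_pos _)
  have hic : Q.index = c := Nat.eq_of_mul_eq_mul_left hpos (hidx.trans h)
  have hdvd := Subgroup.index_dvd_of_le hle
  rw [hic] at hdvd
  exact Odd.of_dvd_nat hc hdvd

/-! ### The antichain -/

/-- There is no homomorphism from a shorter odd cycle. -/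
lemma no_hom (a b : ℕ) (hab : a < b) (g : Fin (2 * a + 3) → Fin (2 * b + 3))
    (hg : ∀ i j, (cycleGraph (2 * a + 3)).Adj i j → (cycleGraph (2 * b + 3)).Adj (g i) (g j)) :
    False := by
  have h1 : ∀ i : Fin (2 * a + 3), ∃ ε : ℤ, (ε = 1 ∨ ε = -1) ∧
      ∃ q : ℤ, ((g (i + 1) : ℕ) : ℤ) - (g i : ℕ) = ε + (2 * b + 3) * q := by
    intro i
    have hadj : (cycleGraph (2 * a + 3)).Adj i (i + 1) := by
      rw [cycleGraph_adj]
      right
      simp
    have h2 := hg _ _ hadj
    rw [cycleGraph_adj'] at h2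
    have k1 := (g i).isLt
    have k2 := (g (i + 1)).isLt
    rcases h2 with h2 | h2
    · refine ⟨-1, Or.inr rfl, ?_⟩
      rw [Fin.val_sub] at h2
      have h3 := Nat.div_add_mod ((2 * b + 3) - (g (i + 1) : ℕ) + (g i : ℕ)) (2 * b + 3)
      rw [h2] at h3
      generalize ((2 * b + 3) - (g (i + 1) : ℕ) + (g i : ℕ)) / (2 * b + 3) = D at h3
      refine ⟨1 - (D : ℤ), ?_⟩
      zify [k2.le] at h3
      linarith
    · refine ⟨1, Or.inl rfl, ?_⟩
      rw [Fin.val_sub] at h2
      have h3 := Nat.div_add_mod ((2 * b + 3) - (g i : ℕ) + (g (i + 1) : ℕ)) (2 * b + 3)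
      rw [h2] at h3
      generalize ((2 * b + 3) - (g i : ℕ) + (g (i + 1) : ℕ)) / (2 * b + 3) = D at h3
      refine ⟨(D : ℤ) - 1, ?_⟩
      zify [k1.le] at h3
      linarith
  choose ε hε q hq using h1
  have hsum : ∑ i : Fin (2 * a + 3), (((g (i + 1) : ℕ) : ℤ) - (g i : ℕ)) = 0 := by
    rw [sum_sub_distrib, sub_eq_zero]
    exact Equiv.sum_comp (Equiv.addRight (1 : Fin (2 * a + 3))) (fun i => ((g i : ℕ) : ℤ))
  have hsum2 : ∑ i, ε i + (2 * b + 3) * ∑ i, q i = 0 := by
    rw [← hsum, sum_congr rfl (fun i _ => hq i), sum_add_distrib, mul_sum]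
  have habs : |∑ i, ε i| ≤ 2 * a + 3 := by
    refine (abs_sum_le_sum_abs _ _).trans ?_
    have : ∀ i ∈ (univ : Finset (Fin (2 * a + 3))), |ε i| ≤ 1 := by
      intro i _
      rcases hε i with h | h <;> simp [h]
    refine (sum_le_card_nsmul _ _ _ this).trans ?_
    simp
  have hzero : ∑ i, ε i = 0 := by
    apply Int.eq_zero_of_abs_lt_dvd (m := 2 * b + 3)
    · exact ⟨-∑ i, q i, by linarith⟩
    · have : (a : ℤ) < b := by exact_mod_cast hab
      linarith
  have hodd : Odd (∑ i, ε i) := by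
    have h2 : (∑ i, ε i) ≡ ∑ i : Fin (2 * a + 3), 1 [ZMOD 2] := by
      apply Int.ModEq.sum
      intro i _
      rcases hε i with h | h
      · rw [h]
      · rw [h]; decide
    rw [Int.odd_iff]
    rw [Int.ModEq] at h2
    rw [h2]
    simp
  rw [hzero] at hodd
  exact absurd hodd (by decide)

lemma antichain (a b : ℕ) (h : (blow (2 * a + 3)).IsContained (blow (2 * b + 3))) : a = b := by
  obtain ⟨f⟩ := h
  rcases lt_trichotomy a b with hab | hab | hab
  · exfalso
    apply no_hom a b hab (fun i => (f (⟨i, ⟨0, by positivity⟩⟩ :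
      Σ i : Fin (2 * a + 3), Fin (2 ^ (i : ℕ)))).1)
    intro i j hij
    have h2 : (blow (2 * a + 3)).Adj ⟨i, ⟨0, by positivity⟩⟩ ⟨j, ⟨0, by positivity⟩⟩ := hij
    exact f.toHom.map_adj h2
  · exact hab
  · exfalso
    have h1 := Nat.card_le_card_of_injective _ f.injective
    rw [card_V, card_V] at h1
    have h2 : 2 ^ (2 * b + 3) < 2 ^ (2 * a + 3) := Nat.pow_lt_pow_right (by norm_num) (by omega)
    have h3 : 0 < 2 ^ (2 * b + 3) := by positivity
    omega

/-! ### The classes -/

/-- The class of all graphs which are subgraphs of some `F a = blow (2 a + 3)`, either with `a ∈ T`,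
or properly. -/
def 𝓜 (T : Set ℕ) (n : ℕ) : Set (SimpleGraph (Fin n)) :=
  {G | ∃ a : ℕ, G.IsContained (blow (2 * a + 3)) ∧
    (a ∈ T ∨ ¬ (blow (2 * a + 3)).IsContained G)}

lemma 𝓜_monotone (T : Set ℕ) : IsMonotone (𝓜 T) := by
  rintro m n G H hGH ⟨a, h1, h2⟩
  refine ⟨a, hGH.trans h1, ?_⟩
  rcases h2 with h2 | h2
  · exact Or.inl h2
  · exact Or.inr (fun h => h2 (h.trans hGH))

lemma hereditary_of_monotone {C : ∀ n, Set (SimpleGraph (Fin n))} (h : IsMonotone C) :
    IsHereditary C := by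
  rintro m n G H ⟨f⟩ hH
  exact h m n G H ⟨f.toCopy⟩ hH

/-- The number of labelled copies on `Fin n`. -/
lemma odd_copies (k : ℕ) : Odd ({G : SimpleGraph (Fin (2 ^ k - 1)) |
    Nonempty (blow k ≃g G)}.ncard) := by
  have e : (Σ i : Fin k, Fin (2 ^ (i : ℕ))) ≃ Fin (2 ^ k - 1) := by
    apply Fintype.equivFinOfCardEq
    rw [← Nat.card_eq_fintype_card, card_V]
  have h : {G : SimpleGraph (Fin (2 ^ k - 1)) | Nonempty (blow k ≃g G)} =
      (fun G : SimpleGraph (Σ i : Fin k, Fin (2 ^ (i : ℕ))) => G.comap e.symm) ''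
        {G | Nonempty (blow k ≃g G)} := by
    ext G
    constructor
    · rintro ⟨f⟩
      refine ⟨G.comap e, ⟨⟨f.toEquiv.trans e.symm, ?_⟩⟩, ?_⟩
      · intro a b
        simpa using f.map_adj_iff
      · ext a b
        simp
    · rintro ⟨G', ⟨f⟩, rfl⟩
      refine ⟨⟨f.toEquiv.trans e, ?_⟩⟩
      intro a b
      simpa using f.map_adj_iff
  rw [h, Set.ncard_image_of_injective]
  · exact odd_orbit k
  · intro G G' hG
    have := congrArg (SimpleGraph.comap e) hG
    simpa [SimpleGraph.comap_comap] using this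

lemma iso_of_contained {V W : Type} [Finite V] [Finite W] {F : SimpleGraph V} {G : SimpleGraph W}
    (h1 : F.IsContained G) (h2 : G.IsContained F) : Nonempty (F ≃g G) := by
  obtain ⟨f⟩ := h1
  obtain ⟨g⟩ := h2
  have hfin : Finite F.edgeSet := inferInstance
  have hinj := (g.comp f).mapEdgeSet.injective
  have hsurj := Finite.surjective_of_injective hinj
  have hbij : Function.Bijective f := by
    refine (Nat.bijective_iff_injective_and_card f).2 ⟨f.injective, le_antisymm ?_ ?_⟩
    · exact Nat.card_le_card_of_injective _ f.injective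
    · exact Nat.card_le_card_of_injective _ g.injective
  refine ⟨⟨Equiv.ofBijective f hbij, ?_⟩⟩
  intro a b
  constructor
  · intro hab
    have hab' : F.Adj (g.comp f a) (g.comp f b) := g.toHom.map_adj hab
    obtain ⟨⟨e, he⟩, hee⟩ := hsurj ⟨s(g.comp f a, g.comp f b), hab'⟩
    have h3 : Sym2.map (g.comp f) e = s(g.comp f a, g.comp f b) := congrArg Subtype.val hee
    have h4 : Sym2.map (g.comp f) e = Sym2.map (g.comp f) s(a, b) := by rw [h3]; rfl
    have h5 := Sym2.map.injective (g.comp f).injective h4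
    rw [h5] at he
    exact he
  · intro hab
    exact f.toHom.map_adj hab

/-- Membership at the critical order. -/
lemma 𝓜_eq (T : Set ℕ) (a : ℕ) : 𝓜 T (2 ^ (2 * a + 3) - 1) = 𝓜 ∅ (2 ^ (2 * a + 3) - 1) ∪
    {G | a ∈ T ∧ Nonempty (blow (2 * a + 3) ≃g G)} := by
  ext G
  constructor
  · rintro ⟨b, h1, h2⟩
    by_cases h3 : (blow (2 * b + 3)).IsContained G
    · right
      have hb : b ∈ T := by
        rcases h2 with h2 | h2
        · exact h2
        · exact absurd h3 h2
      have hiso := iso_of_contained h3 h1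
      have hab : b = a := by
        obtain ⟨f⟩ := hiso
        have h4 := Nat.card_congr f.toEquiv
        rw [card_V, Nat.card_eq_fintype_card, Fintype.card_fin] at h4
        have p1 : 0 < 2 ^ (2 * b + 3) := by positivity
        have p2 : 0 < 2 ^ (2 * a + 3) := by positivity
        have h5 : 2 ^ (2 * b + 3) = 2 ^ (2 * a + 3) := by omega
        have h6 := Nat.pow_right_injective (le_refl 2) h5
        omega
      rw [hab] at hb hiso
      exact ⟨hb, hiso⟩
    · left
      exact ⟨b, h1, Or.inr h3⟩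
  · rintro (⟨b, h1, h2⟩ | ⟨h1, ⟨f⟩⟩)
    · refine ⟨b, h1, Or.inr ?_⟩
      rcases h2 with h2 | h2
      · exact absurd h2 (Set.notMem_empty b)
      · exact h2
    · exact ⟨a, ⟨f.symm.toCopy⟩, Or.inl h1⟩

lemma 𝓜_disj (a : ℕ) : Disjoint (𝓜 ∅ (2 ^ (2 * a + 3) - 1))
    {G | Nonempty (blow (2 * a + 3) ≃g G)} := by
  rw [Set.disjoint_left]
  rintro G ⟨b, h1, h2⟩ ⟨f⟩
  have h3 : (blow (2 * a + 3)).IsContained (blow (2 * b + 3)) := IsContained.trans ⟨f.toCopy⟩ h1
  have hab := antichain a b h3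
  subst hab
  rcases h2 with h2 | h2
  · exact Set.notMem_empty _ h2
  · exact h2 ⟨f.toCopy⟩

/-- Membership of `a` in `T` can be read off from the speed of `𝓜 T` modulo `2`. -/
lemma speed_mem (T : Set ℕ) (a : ℕ) : a ∈ T ↔
    ((speed (𝓜 T) (2 ^ (2 * a + 3) - 1) : ℤ) : ZMod 2) ≠
      ((speed (𝓜 ∅) (2 ^ (2 * a + 3) - 1) : ℤ) : ZMod 2) := by
  have h := 𝓜_eq T a
  unfold speed
  rw [h]
  by_cases ha : a ∈ T
  · simp only [ha, true_and, ne_eq, true_iff]
    rw [Set.ncard_union_eq (𝓜_disj a) (Set.toFinite _) (Set.toFinite _)]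
    obtain ⟨c, hc⟩ := odd_copies (2 * a + 3)
    rw [hc]
    push_cast
    have h2 : (2 : ZMod 2) = 0 := by decide
    rw [h2]
    simp
  · simp [ha]

/-! ### Counting the solutions of linear recurrences -/

/-- The sequences modulo `2` satisfying a linear recurrence from some index on. -/
def Rec : Set (ℕ → ZMod 2) :=
  {u | ∃ r p : ℕ, 1 ≤ p ∧ ∃ α : Fin p → ZMod 2, ∀ n, r ≤ n →
    u (n + p) = ∑ i : Fin p, α i * u (n + i)}

lemma rec_countable : Rec.Countable := by
  have h : Rec ⊆ ⋃ r : ℕ, ⋃ p : ℕ, ⋃ α : Fin p → ZMod 2,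
      {u | 1 ≤ p ∧ ∀ n, r ≤ n → u (n + p) = ∑ i : Fin p, α i * u (n + i)} := by
    rintro u ⟨r, p, hp, α, h⟩
    simp only [Set.mem_iUnion]
    exact ⟨r, p, α, hp, h⟩
  refine Set.Countable.mono h (Set.countable_iUnion fun r => Set.countable_iUnion fun p =>
    Set.countable_iUnion fun α => ?_)
  apply Set.Finite.countable
  refine Set.Finite.of_injOn (f := fun (u : ℕ → ZMod 2) (i : Fin (r + p)) => u i)
    (t := Set.univ) (fun _ _ => Set.mem_univ _) ?_ Set.finite_univ
  rintro u ⟨hp, hu⟩ v ⟨_, hv⟩ huv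
  funext n
  induction n using Nat.strong_induction_on with
  | _ n ih =>
    by_cases hn : n < r + p
    · exact congrFun huv ⟨n, hn⟩
    · obtain ⟨m, rfl⟩ : ∃ m, n = m + p := ⟨n - p, by omega⟩
      rw [hu m (by omega), hv m (by omega)]
      refine sum_congr rfl (fun i _ => ?_)
      rw [ih (m + i) (by have := i.isLt; omega)]

lemma rec_of_mcfinite {s : ℕ → ℤ} (h : MCFinite s) : (fun n => ((s n : ℤ) : ZMod 2)) ∈ Rec := by
  obtain ⟨r, p, _, hp, α, h⟩ := h 2 (by norm_num)
  refine ⟨r, p, hp, fun i => ((α i : ℤ) : ZMod 2), ?_⟩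
  intro n hn
  have h2 := (ZMod.intCast_eq_intCast_iff _ _ 2).2 (h n hn)
  push_cast at h2
  change ((s (n + p) : ℤ) : ZMod 2) = _
  rw [h2, ← Fin.sum_univ_eq_sum_range (fun i => ((α i : ℤ) : ZMod 2) * ((s (n + i) : ℤ) : ZMod 2)) p]

/-- **Q1, in the strongest form.** There is a monotone class of graphs, in particular a hereditary
one, whose speed is not MC-finite. -/
theorem result : ∃ C : ∀ n, Set (SimpleGraph (Fin n)),
    IsMonotone C ∧ IsHereditary C ∧ ¬ MCFinite (speed C) := by
  by_contra hcon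
  push Not at hcon
  have hall : ∀ T : Set ℕ, MCFinite (speed (𝓜 T)) := fun T =>
    hcon (𝓜 T) (𝓜_monotone T) (hereditary_of_monotone (𝓜_monotone T))
  let Φ : Set ℕ → (ℕ → ZMod 2) := fun T n => ((speed (𝓜 T) n : ℤ) : ZMod 2)
  have hΦ : Function.Injective Φ := by
    intro T T' h
    ext a
    rw [speed_mem T a, speed_mem T' a]
    have h2 : ((speed (𝓜 T) (2 ^ (2 * a + 3) - 1) : ℤ) : ZMod 2) =
      ((speed (𝓜 T') (2 ^ (2 * a + 3) - 1) : ℤ) : ZMod 2) := congrFun h _
    rw [h2]
  have hrange : Set.range Φ ⊆ Rec := by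
    rintro _ ⟨T, rfl⟩
    exact rec_of_mcfinite (hall T)
  have hc : (Set.range Φ).Countable := rec_countable.mono hrange
  have hc2 : (Set.univ : Set (Set ℕ)).Countable := by
    have := Set.countable_of_injective_of_countable_image (s := Set.univ) hΦ.injOn
      (by rw [Set.image_univ]; exact hc)
    exact this
  rw [Set.countable_univ_iff] at hc2
  obtain ⟨f, hf⟩ := exists_injective_nat (Set ℕ)
  exact Function.cantor_injective f hf

end Pool.Agent.Results.MP_337eac_co.MonotoneNotMC
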